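import Pool.Agent.H84.W.Asm
import Pool.Agent.H4.OG.Two

set_option autoImplicit false

/-!
Kernels and cokernels of assembly maps under an inclusion of index two.
-/

namespace Pool.Agent.H4.AS

open Pool.Agent.H84.W Pool.Agent.H4.OG

/-- Inner automorphisms act trivially on the functor. -/
def InnerTrivial (E : GrpFun) : Prop :=
  ∀ (G : Type) [Group G] (t : G) (x : E.obj G), E.map (MulAut.conj t).toMonoidHom x = x

/-- The basic properties of the assembly maps: source and target commute with directed colimits of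
groups, inner automorphisms act trivially on them, and the assembly maps of the trivial group are
isomorphisms. -/
structure Basic (T : Assembly) : Prop where
  finitary : ∀ n, (T.H n).Finitary ∧ (T.L n).Finitary
  inner : ∀ n, InnerTrivial (T.H n) ∧ InnerTrivial (T.L n)
  trivial : ∀ n, T.Inj n Unit ∧ T.Surj n Unit

/-- The kernel of `α_n` for `L` injects into the kernel of `α_n` for `V`. -/
def KerInj (T : Assembly) (n : ℤ) {L V : Type} [Group L] [Group V] (f : L →* V) : Prop :=
  ∀ x : (T.H n).obj L, T.α n L x = 0 → (T.H n).map f x = 0 → x = 0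

/-- The cokernel of `α_n` for `L` injects into the cokernel of `α_n` for `V`. -/
def CokerInj (T : Assembly) (n : ℤ) {L V : Type} [Group L] [Group V] (f : L →* V) : Prop :=
  ∀ y : (T.L n).obj L, (∃ h : (T.H n).obj V, T.α n V h = (T.L n).map f y) →
    ∃ h : (T.H n).obj L, T.α n L h = y

theorem map_conj (E : GrpFun) (hE : InnerTrivial E) {G V : Type} [Group G] [Group V]
    (f g : G →* V) (t : V) (h : ∀ x, g x = t * f x * t⁻¹) (x : E.obj G) :
    E.map g x = E.map f x := by
  have h1 : g = (MulAut.conj t).toMonoidHom.comp f := by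
    apply MonoidHom.ext
    intro x
    exact h x
  rw [h1, E.map_comp_apply, hE]

theorem map_i (E : GrpFun) (hE : InnerTrivial E) (G : Type) [Group G] (x : E.obj G) :
    E.map (LL G).subtype (E.map (i2 G) x) = E.map (LL G).subtype (E.map (i1 G) x) := by
  rw [← E.map_comp_apply, ← E.map_comp_apply]
  exact map_conj E hE _ _ (SemidirectProduct.inr (Multiplicative.ofAdd 1)) (conj_i G) x

theorem map_pL (E : GrpFun) (G : Type) [Group G] (x : E.obj G) :
    E.map (pL G) (E.map (i1 G) x - E.map (i2 G) x) =
      x - E.map (1 : Unit →* G) (E.map (1 : G →* Unit) x) := by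
  rw [map_sub, ← E.map_comp_apply, ← E.map_comp_apply, ← E.map_comp_apply, pL_i1, pL_i2, E.map_id]
  rfl

section

variable (T : Assembly) (hT : Basic T) (n : ℤ)

include hT

theorem surj_of_coker (G : Type) [Group G] (h : CokerInj T n (LL G).subtype) : T.Surj n G := by
  intro y
  obtain ⟨w, hw⟩ := h ((T.L n).map (i1 G) y - (T.L n).map (i2 G) y) ⟨0, by
    rw [map_zero, map_sub, map_i (T.L n) (hT.inner n).2 G y, sub_self]⟩
  obtain ⟨z, hz⟩ := (hT.trivial n).2 ((T.L n).map (1 : G →* Unit) y)
  refine ⟨(T.H n).map (pL G) w + (T.H n).map (1 : Unit →* G) z, ?_⟩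
  rw [map_add, ← T.nat, ← T.nat, hw, hz, map_pL, sub_add_cancel]

theorem inj_of_ker (G : Type) [Group G] (h : KerInj T n (LL G).subtype) : T.Inj n G := by
  unfold Assembly.Inj
  rw [injective_iff_map_eq_zero]
  intro x hx
  have h1 := h ((T.H n).map (i1 G) x - (T.H n).map (i2 G) x) (by
    rw [map_sub, ← T.nat, ← T.nat, hx, map_zero, map_zero, sub_zero]) (by
    rw [map_sub, map_i (T.H n) (hT.inner n).1 G x, sub_self])
  have h2 := map_pL (T.H n) G x
  rw [h1, map_zero] at h2
  have h3 : (T.H n).map (1 : G →* Unit) x = 0 := by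
    apply (hT.trivial n).1
    rw [← T.nat, hx, map_zero, map_zero]
  rw [h3, map_zero, sub_zero] at h2
  exact h2.symm

theorem surj_all (h : CokerInj T n (LL UU).subtype) : AllTF fun G _ => T.Surj n G := by
  intro G _ hG
  refine T.surj_colim n (hT.finitary n).2 ?_ G hG
  intro P _ _
  obtain ⟨i, r, hir⟩ := retr_U P
  exact T.surj_retr n i r hir (surj_of_coker T hT n UU h)

theorem inj_all (h : KerInj T n (LL UU).subtype) : AllTF fun G _ => T.Inj n G := by
  intro G _ hG
  refine T.inj_colim n (hT.finitary n).1 (hT.finitary n).2 ?_ G hG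
  intro P _ _
  obtain ⟨i, r, hir⟩ := retr_U P
  exact T.inj_retr n i r hir (inj_of_ker T hT n UU h)

end

theorem kerInj_of_inj (T : Assembly) (n : ℤ) {L V : Type} [Group L] [Group V] (f : L →* V)
    (h : T.Inj n L) : KerInj T n f := by
  intro x hx _
  apply h
  rw [hx, map_zero]

theorem cokerInj_of_surj (T : Assembly) (n : ℤ) {L V : Type} [Group L] [Group V] (f : L →* V)
    (h : T.Surj n L) : CokerInj T n f := fun y _ => h y

end Pool.Agent.H4.AS
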